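import Pool.Agent.H191Z.RDefs
import Pool.Agent.H191Z.GenusDefs

set_option autoImplicit false

open TensorProduct CategoryTheory AlgebraicGeometry Polynomial
open Pool.Agent.H191Z.Gerbe Pool.Agent.H191Z.Rig

namespace Pool.Agent.H405Z.Help48

theorem exists_point {K S0 S1 S A : Type} [Field K] [IsAlgClosed K] [CommRing S0] [CommRing S1]
    [CommRing S] [Algebra K S0] [Algebra K S1] [Algebra K S] (f0 : S0 →ₐ[K] S) (f1 : S1 →ₐ[K] S)
    (hint : ∀ (c0 : S0) (c1 : S1), f0 c0 = f1 c1 → IsIntegral K (f0 c0))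
    [CommRing A] [IsDomain A] [Algebra K A] [Algebra A S] [IsScalarTower K A S]
    [Algebra.IsIntegral A S] [Module.Flat A S] (x : S →ₐ[K] K) (y : A →ₐ[K] K) :
    ∃ y' : S →ₐ[K] K, (∀ a : A, y' (algebraMap A S a) = y a) ∧
      ∀ (c0 : S0) (c1 : S1), f0 c0 = f1 c1 → x (f0 c0) = y' (f0 c0) := by
  let I : Ideal S :=
    { carrier := {s | ∃ c : S, x c = 1 ∧ IsNilpotent (c * s)}
      add_mem' := by
        rintro s t ⟨c, hc, hs⟩ ⟨d, hd, ht⟩
        refine ⟨c * d, by rw [map_mul, hc, hd, mul_one], ?_⟩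
        have e : c * d * (s + t) = d * (c * s) + c * (d * t) := by ring
        rw [e]
        exact (Commute.all _ _).isNilpotent_add ((Commute.all _ _).isNilpotent_mul_left hs)
          ((Commute.all _ _).isNilpotent_mul_left ht)
      zero_mem' := ⟨1, map_one x, by simp⟩
      smul_mem' := by
        rintro r s ⟨c, hc, hs⟩
        refine ⟨c, hc, ?_⟩
        have e : c * (r • s) = r * (c * s) := by rw [smul_eq_mul]; ring
        rw [e]
        exact (Commute.all _ _).isNilpotent_mul_left hs }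
  have hP : (RingHom.ker y).IsPrime := RingHom.ker_isPrime y
  have hI : I.comap (algebraMap A S) ≤ RingHom.ker y := by
    rintro a ⟨c, hc, m, hm⟩
    by_cases ha : a = 0
    · rw [ha]; exact Ideal.zero_mem _
    exfalso
    have hreg : IsSMulRegular S (a ^ m) :=
      Module.Flat.isSMulRegular_of_nonZeroDivisors (mem_nonZeroDivisors_of_ne_zero (pow_ne_zero m ha))
    have h0 : c ^ m = 0 := by
      apply hreg
      simp only [Algebra.smul_def, map_pow, mul_zero]
      rw [← mul_pow, mul_comm, hm]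
    have := congrArg x h0
    rw [map_pow, hc, map_zero, one_pow] at this
    exact one_ne_zero this
  obtain ⟨Q, hIQ, hQ, hQP⟩ := Ideal.exists_ideal_over_prime_of_isIntegral (RingHom.ker y) I hI
  have hcomp : ∀ a : A, Ideal.Quotient.mk Q (algebraMap A S a) = algebraMap K (S ⧸ Q) (y a) := by
    intro a
    have h1 : a - algebraMap K A (y a) ∈ Q.comap (algebraMap A S) := by
      rw [hQP, RingHom.mem_ker]; simp
    rw [Ideal.mem_comap, map_sub, ← IsScalarTower.algebraMap_apply] at h1
    exact Ideal.Quotient.eq.mpr h1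
  have hintQ : Algebra.IsIntegral K (S ⧸ Q) := by
    constructor
    intro z
    obtain ⟨s, rfl⟩ := Ideal.Quotient.mk_surjective z
    obtain ⟨p, hp, hps⟩ := Algebra.IsIntegral.isIntegral (R := A) s
    refine ⟨p.map (y : A →+* K), hp.map _, ?_⟩
    rw [eval₂_map]
    have e : (algebraMap K (S ⧸ Q)).comp (y : A →+* K)
        = (Ideal.Quotient.mk Q).comp (algebraMap A S) := RingHom.ext fun a => (hcomp a).symm
    rw [e, ← hom_eval₂, hps, map_zero]
  let e : K ≃ₐ[K] S ⧸ Q := AlgEquiv.ofBijective (Algebra.ofId K (S ⧸ Q))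
    IsAlgClosed.algebraMap_bijective_of_isIntegral
  have he : ∀ k : K, e.symm (algebraMap K (S ⧸ Q) k) = k := fun k => e.symm_apply_apply k
  refine ⟨(e.symm : (S ⧸ Q) →ₐ[K] K).comp (Ideal.Quotient.mkₐ K Q), fun a => ?_,
    fun c0 c1 h => ?_⟩
  · change e.symm (Ideal.Quotient.mk Q _) = _
    rw [hcomp, he]
  · have hn : IsIntegral K (f0 c0 - algebraMap K S (x (f0 c0))) :=
      (hint c0 c1 h).sub isIntegral_algebraMap
    have hx : x (f0 c0 - algebraMap K S (x (f0 c0))) = 0 := by simp
    set n := f0 c0 - algebraMap K S (x (f0 c0)) with hndef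
    have hmem : n ∈ I := by
      obtain ⟨p, hp, hpn⟩ := hn
      obtain ⟨g, hg, hg0⟩ := exists_eq_pow_rootMultiplicity_mul_and_not_dvd p hp.ne_zero 0
      rw [dvd_iff_isRoot, IsRoot.def] at hg0
      set a := rootMultiplicity 0 p
      have h1 : n ^ a * aeval n g = 0 := by
        have : aeval n p = 0 := hpn
        rw [hg] at this
        simpa using this
      refine ⟨(eval 0 g)⁻¹ • aeval n g, ?_, a + 1, ?_⟩
      · rw [map_smul, ← aeval_algHom_apply, hx, coe_aeval_eq_eval, smul_eq_mul,
          inv_mul_cancel₀ hg0]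
      · rw [smul_mul_assoc, _root_.smul_pow]
        have : (aeval n g * n) ^ (a + 1) = (n ^ a * aeval n g) * (aeval n g ^ a * n) := by ring
        rw [this, h1, zero_mul, smul_zero]
    have h2 : Ideal.Quotient.mk Q (f0 c0) = algebraMap K (S ⧸ Q) (x (f0 c0)) :=
      Ideal.Quotient.eq.mpr (hIQ hmem)
    change _ = e.symm (Ideal.Quotient.mk Q _)
    rw [h2, he]

theorem const_eval {K S0 S1 S : Type} [Field K] [CommRing S0] [CommRing S1]
    [CommRing S] [Algebra K S0] [Algebra K S1] [Algebra K S] (f0 : S0 →ₐ[K] S) (f1 : S1 →ₐ[K] S)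
    (x y : S →ₐ[K] K) (h : ∀ (c0 : S0) (c1 : S1), f0 c0 = f1 c1 → x (f0 c0) = y (f0 c0))
    (W : Type) [CommRing W] [Algebra K W] (w0 : W ⊗[K] S0) (w1 : W ⊗[K] S1)
    (hw : Algebra.TensorProduct.map (AlgHom.id K W) f0 w0 =
      Algebra.TensorProduct.map (AlgHom.id K W) f1 w1) :
    evalAt W x (Algebra.TensorProduct.map (AlgHom.id K W) f0 w0) =
      evalAt W y (Algebra.TensorProduct.map (AlgHom.id K W) f0 w0) := by
  rw [← sub_eq_zero, ← Module.forall_dual_apply_eq_zero_iff K]
  intro l
  have h1 : ∀ (z : S →ₐ[K] K) (w : W ⊗[K] S),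
      l (evalAt W z w) = z (TensorProduct.lid K S (LinearMap.rTensor S l w)) := by
    intro z w
    induction w using TensorProduct.induction_on with
    | zero => simp
    | tmul a b =>
      have : evalAt W z (a ⊗ₜ[K] b) = z b • a := by
        simp [evalAt, Algebra.smul_def, mul_comm, Algebra.ofId_apply]
      rw [this]
      simp [mul_comm]
    | add a b ha hb => simp only [map_add, ha, hb]
  have h2 : ∀ {T : Type} [CommRing T] [Algebra K T] (f : T →ₐ[K] S) (w : W ⊗[K] T),
      TensorProduct.lid K S (LinearMap.rTensor S l (Algebra.TensorProduct.map (AlgHom.id K W) f w))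
        = f (TensorProduct.lid K T (LinearMap.rTensor T l w)) := by
    intro T _ _ f w
    induction w using TensorProduct.induction_on with
    | zero => simp
    | tmul a b => simp
    | add a b ha hb => simp only [map_add, ha, hb]
  rw [map_sub, h1, h1, h2, sub_eq_zero]
  refine h _ (TensorProduct.lid K S1 (LinearMap.rTensor S1 l w1)) ?_
  rw [← h2, ← h2, hw]

end Pool.Agent.H405Z.Help48
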